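import Pool.Agent.Lib.MP_d81877_alZF.Form

/-!
# MP_d81877_al, part D: dimer insertion, contraction and twisted swap on the model Z

Coordinates: `u A B` is the coefficient of `ε_A f_B` (`th x` is multiplication by `ε_x`).
Everything is relative to a finite set `V` of sites.

* `btw V i k` : the sum of `f y * d y` over the sites `y` of `V` strictly between `i` and `k`
* `hh V i k` : insertion of the dimer at `i, k` (to be applied to vectors off `i, k`)
* `cz V i k` : contraction of the sites `i, k`
* `tw i k` : twisted transposition of two neighbours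
* `ez V` : the third annihilator of the image of primitive vectors
-/

namespace D81877Z

open Finset D81877ZF

variable {ι : Type*} [LinearOrder ι] {K : Type*} [Field K]

/-- the sites of `V` strictly between `i` and `k` -/
def bset (V : Finset ι) (i k : ι) : Finset ι :=
  V.filter (fun y => (i < y ∧ y < k) ∨ (k < y ∧ y < i))

/-- the sum of `f y * d y` over the sites of `V` strictly between `i` and `k` -/
def btw (V : Finset ι) (i k : ι) : Module.End K (Z ι K) :=
  ∑ y ∈ bset V i k, f y * d y

/-- insertion of the dimer at `i, k` -/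
def hh (V : Finset ι) (i k : ι) : Module.End K (Z ι K) :=
  (f i + f k) * (th i + th k) + f i * f k * (1 + btw V i k)

/-- projection to the components without `i`, `k` -/
def off (i k : ι) : Module.End K (Z ι K) where
  toFun u := fun A B => if i ∈ A ∨ k ∈ A ∨ i ∈ B ∨ k ∈ B then 0 else u A B
  map_add' u v := by
    funext A B; by_cases h : i ∈ A ∨ k ∈ A ∨ i ∈ B ∨ k ∈ B <;> simp [h]
  map_smul' c u := by
    funext A B; by_cases h : i ∈ A ∨ k ∈ A ∨ i ∈ B ∨ k ∈ B <;> simp [h]

/-- contraction of the sites `i, k` -/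
def cz (V : Finset ι) (i k : ι) : Module.End K (Z ι K) :=
  off i k * ((d i + d k) * (g i + g k) + d i * d k * (1 + btw V i k))

/-- renaming of the sites -/
def ren (s : Equiv.Perm ι) : Module.End K (Z ι K) where
  toFun u := fun A B => u (A.map s.symm.toEmbedding) (B.map s.symm.toEmbedding)
  map_add' _ _ := rfl
  map_smul' _ _ := rfl

/-- twisted transposition of two neighbours `i`, `k` -/
def tw (i k : ι) : Module.End K (Z ι K) :=
  ren (Equiv.swap i k) * (1 + f i * f k * (d i * d k))

/-- the third annihilator -/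
def ez (V : Finset ι) : Module.End K (Z ι K) :=
  ∑ x ∈ V, (g x + d x + f x * (g x * d x))
    + ∑ x ∈ V, ∑ y ∈ V.filter (fun y => y < x), f y * (d y * d x)

/-- `u` is a vector off the site `i` -/
def Off (i : ι) (u : Z ι K) : Prop := d i u = 0 ∧ g i u = 0

theorem off_apply (i k : ι) (u : Z ι K) (A B : Finset ι) :
    off i k u A B = if i ∈ A ∨ k ∈ A ∨ i ∈ B ∨ k ∈ B then 0 else u A B := rfl

omit [LinearOrder ι] in
theorem ren_apply (s : Equiv.Perm ι) (u : Z ι K) (A B : Finset ι) :
    ren s u A B = u (A.map s.symm.toEmbedding) (B.map s.symm.toEmbedding) := rfl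

theorem Off_iff {i : ι} {u : Z ι K} :
    Off i u ↔ ∀ A B, (i ∈ A ∨ i ∈ B) → u A B = 0 := by
  constructor
  · rintro ⟨h1, h2⟩ A B h
    rcases h with h | h
    · have := congrFun (congrFun h1 (A.erase i)) B
      simpa [d_apply, h] using this
    · have := congrFun (congrFun h2 A) (B.erase i)
      simpa [g_apply, h] using this
  · intro h
    refine ⟨?_, ?_⟩
    · funext A B
      rw [d_apply]
      split_ifs with h1
      · rfl
      · exact h _ _ (Or.inl (mem_insert_self _ _))
    · funext A B
      rw [g_apply]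
      split_ifs with h1
      · rfl
      · exact h _ _ (Or.inr (mem_insert_self _ _))

theorem bset_comm (V : Finset ι) (i k : ι) : bset V i k = bset V k i := by
  ext y; simp only [bset, mem_filter]; tauto

theorem btw_comm (V : Finset ι) (i k : ι) :
    (btw V i k : Module.End K (Z ι K)) = btw V k i := by
  rw [btw, btw, bset_comm]

theorem hh_comm (V : Finset ι) (i k : ι) :
    (hh V i k : Module.End K (Z ι K)) = hh V k i := by
  rw [hh, hh, btw_comm, add_comm (f i), add_comm (th i), (f_comm i k).eq]

theorem mem_bset {V : Finset ι} {i k y : ι} :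
    y ∈ bset V i k ↔ y ∈ V ∧ ((i < y ∧ y < k) ∨ (k < y ∧ y < i)) := by
  simp [bset]

theorem left_notMem_bset (V : Finset ι) (i k : ι) : i ∉ bset V i k := by
  simp [bset]

theorem right_notMem_bset (V : Finset ι) (i k : ι) : k ∉ bset V i k := by
  simp [bset]

/-- neighbours in `V`: nothing in between -/
theorem btw_of_adj {V : Finset ι} {i k : ι} (h : bset V i k = ∅) :
    (btw V i k : Module.End K (Z ι K)) = 0 := by
  rw [btw, h, sum_empty]

/-! ### applied forms of the relations -/

theorem fd_comm (x y : ι) (u : Z ι K) : f x (d y u) = d y (f x u) :=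
  LinearMap.congr_fun (f_d_comm x y).eq u
theorem ff_comm (x y : ι) (u : Z ι K) : f x (f y u) = f y (f x u) :=
  LinearMap.congr_fun (f_comm x y).eq u
theorem dd_comm (x y : ι) (u : Z ι K) : d x (d y u) = d y (d x u) :=
  LinearMap.congr_fun (d_comm x y).eq u
theorem gg_comm (x y : ι) (u : Z ι K) : g x (g y u) = g y (g x u) :=
  LinearMap.congr_fun (g_comm x y).eq u
theorem tt_comm (x y : ι) (u : Z ι K) : th x (th y u) = th y (th x u) :=
  LinearMap.congr_fun (th_comm x y).eq u
theorem ft_comm (x y : ι) (u : Z ι K) : f x (th y u) = th y (f x u) :=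
  LinearMap.congr_fun (f_th_comm x y).eq u
theorem gd_comm (x y : ι) (u : Z ι K) : g x (d y u) = d y (g x u) :=
  LinearMap.congr_fun (g_d_comm x y).eq u
theorem gt_comm (x y : ι) (u : Z ι K) : g x (th y u) = th y (g x u) :=
  LinearMap.congr_fun (g_th_comm x y).eq u
theorem gf_comm {x y : ι} (h : x ≠ y) (u : Z ι K) : g x (f y u) = f y (g x u) :=
  LinearMap.congr_fun (g_f_comm h).eq u
theorem dt_comm {x y : ι} (h : x ≠ y) (u : Z ι K) : d x (th y u) = th y (d x u) :=
  LinearMap.congr_fun (d_th_comm h).eq u
theorem ff_self (x : ι) (u : Z ι K) : f x (f x u) = 0 :=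
  LinearMap.congr_fun (f_sq x) u
theorem tt_self (x : ι) (u : Z ι K) : th x (th x u) = 0 :=
  LinearMap.congr_fun (th_sq x) u
theorem dd_self (x : ι) (u : Z ι K) : d x (d x u) = 0 :=
  LinearMap.congr_fun (d_sq x) u
theorem gg_self (x : ι) (u : Z ι K) : g x (g x u) = 0 :=
  LinearMap.congr_fun (g_sq x) u
theorem dt_self (x : ι) (u : Z ι K) : d x (th x u) + th x (d x u) = u :=
  LinearMap.congr_fun (d_th_same x) u
theorem gf_self (x : ι) (u : Z ι K) : g x (f x u) + f x (g x u) = u :=
  LinearMap.congr_fun (g_f_same x) u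

theorem Off.dt {x : ι} {u : Z ι K} (h : Off x u) : d x (th x u) = u := by
  have := dt_self x u
  rwa [h.1, map_zero, add_zero] at this

theorem Off.gf {x : ι} {u : Z ι K} (h : Off x u) : g x (f x u) = u := by
  have := gf_self x u
  rwa [h.2, map_zero, add_zero] at this

theorem Off.zero (x : ι) : Off x (0 : Z ι K) := ⟨map_zero _, map_zero _⟩

theorem Off.add {x : ι} {u v : Z ι K} (hu : Off x u) (hv : Off x v) : Off x (u + v) :=
  ⟨by rw [map_add, hu.1, hv.1, add_zero], by rw [map_add, hu.2, hv.2, add_zero]⟩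

theorem Off.sum {α : Type*} {x : ι} (s : Finset α) (u : α → Z ι K)
    (h : ∀ a ∈ s, Off x (u a)) : Off x (∑ a ∈ s, u a) :=
  ⟨by rw [map_sum]; exact sum_eq_zero fun a ha => (h a ha).1,
   by rw [map_sum]; exact sum_eq_zero fun a ha => (h a ha).2⟩

theorem Off.smul {x : ι} {u : Z ι K} (c : K) (h : Off x u) : Off x (c • u) :=
  ⟨by rw [map_smul, h.1, smul_zero], by rw [map_smul, h.2, smul_zero]⟩

theorem Off.f {x y : ι} {u : Z ι K} (hxy : x ≠ y) (h : Off x u) : Off x (D81877ZF.f y u) :=
  ⟨by rw [← fd_comm, h.1, map_zero], by rw [gf_comm hxy, h.2, map_zero]⟩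

theorem Off.d {x : ι} {u : Z ι K} (y : ι) (h : Off x u) : Off x (D81877ZF.d y u) :=
  ⟨by rw [dd_comm, h.1, map_zero], by rw [gd_comm, h.2, map_zero]⟩

theorem Off.g {x : ι} {u : Z ι K} (y : ι) (h : Off x u) : Off x (D81877ZF.g y u) :=
  ⟨by rw [← gd_comm, h.1, map_zero], by rw [gg_comm, h.2, map_zero]⟩

theorem Off.th {x y : ι} {u : Z ι K} (hxy : x ≠ y) (h : Off x u) : Off x (D81877ZF.th y u) :=
  ⟨by rw [dt_comm hxy, h.1, map_zero], by rw [gt_comm, h.2, map_zero]⟩

theorem btw_apply (V : Finset ι) (i k : ι) (u : Z ι K) :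
    btw V i k u = ∑ y ∈ bset V i k, f y (d y u) := by
  simp [btw, LinearMap.sum_apply]

theorem hh_apply (V : Finset ι) (i k : ι) (u : Z ι K) :
    hh V i k u = f i (th i u) + f i (th k u) + f k (th i u) + f k (th k u)
      + f i (f k u) + f i (f k (btw V i k u)) := by
  simp only [hh, LinearMap.add_apply, Module.End.mul_apply, map_add, Module.End.one_apply]
  abel

theorem cz_apply (V : Finset ι) (i k : ι) (u : Z ι K) :
    cz V i k u = off i k (d i (g i u) + d i (g k u) + d k (g i u) + d k (g k u)
      + d i (d k u) + d i (d k (btw V i k u))) := by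
  simp only [cz, LinearMap.add_apply, Module.End.mul_apply, map_add, Module.End.one_apply]
  abel

theorem tw_apply (i k : ι) (u : Z ι K) :
    tw i k u = ren (Equiv.swap i k) (u + f i (f k (d i (d k u)))) := by
  simp only [tw, LinearMap.add_apply, Module.End.mul_apply, map_add, Module.End.one_apply]

end D81877Z
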