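import Pool.Agent.Lib.MP_d81877_alZ.Defs
import Pool.Agent.Lib.MP_d81877_alZF.Orth

/-!
# MP_d81877_al, part D: the twisted transposition on the model Z

`tw x y` (for neighbours `x < y` in `V`) is an involution, commutes with `D V`, `e V`, is
self-adjoint for `B0 V`, and conjugates `E V z` into `E V (swap x y z)`.
-/

namespace D81877Z

open Finset D81877ZF

section ren

variable {ι : Type*} [LinearOrder ι] {K : Type*} [Field K]

theorem ren_mul_f (s : Equiv.Perm ι) (z : ι) :
    (ren s : Module.End K (Z ι K)) * f z = f (s z) * ren s := by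
  ext u A B
  have h1 : z ∈ B.map s.symm.toEmbedding ↔ s z ∈ B := by simp
  have h2 : (B.map s.symm.toEmbedding).erase z = (B.erase (s z)).map s.symm.toEmbedding := by
    ext w; simp only [mem_erase, mem_map_equiv, Equiv.symm_symm, ne_eq, s.injective.eq_iff]
  simp only [Module.End.mul_apply, ren_apply, f_apply, h1, h2]

theorem ren_mul_th (s : Equiv.Perm ι) (z : ι) :
    (ren s : Module.End K (Z ι K)) * th z = th (s z) * ren s := by
  ext u A B
  have h1 : z ∈ A.map s.symm.toEmbedding ↔ s z ∈ A := by simp
  have h2 : (A.map s.symm.toEmbedding).erase z = (A.erase (s z)).map s.symm.toEmbedding := by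
    ext w; simp only [mem_erase, mem_map_equiv, Equiv.symm_symm, ne_eq, s.injective.eq_iff]
  simp only [Module.End.mul_apply, ren_apply, th_apply, h1, h2]

theorem ren_mul_d (s : Equiv.Perm ι) (z : ι) :
    (ren s : Module.End K (Z ι K)) * d z = d (s z) * ren s := by
  ext u A B
  have h1 : z ∈ A.map s.symm.toEmbedding ↔ s z ∈ A := by simp
  have h2 : insert z (A.map s.symm.toEmbedding) = (insert (s z) A).map s.symm.toEmbedding := by
    ext w; simp only [mem_insert, mem_map_equiv, Equiv.symm_symm, s.injective.eq_iff]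
  simp only [Module.End.mul_apply, ren_apply, d_apply, h1, h2]

theorem ren_mul_g (s : Equiv.Perm ι) (z : ι) :
    (ren s : Module.End K (Z ι K)) * g z = g (s z) * ren s := by
  ext u A B
  have h1 : z ∈ B.map s.symm.toEmbedding ↔ s z ∈ B := by simp
  have h2 : insert z (B.map s.symm.toEmbedding) = (insert (s z) B).map s.symm.toEmbedding := by
    ext w; simp only [mem_insert, mem_map_equiv, Equiv.symm_symm, s.injective.eq_iff]
  simp only [Module.End.mul_apply, ren_apply, g_apply, h1, h2]

theorem ren_swap_sq (x y : ι) :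
    (ren (Equiv.swap x y) : Module.End K (Z ι K)) * ren (Equiv.swap x y) = 1 := by
  ext u A B
  simp only [Module.End.mul_apply, ren_apply, Module.End.one_apply]
  have h : ∀ C : Finset ι, (C.map (Equiv.swap x y).symm.toEmbedding).map
      (Equiv.swap x y).symm.toEmbedding = C := by
    intro C
    ext w
    simp only [mem_map_equiv, Equiv.symm_symm, Equiv.swap_apply_self]
  rw [h, h]

theorem map_swap {V : Finset ι} {x y : ι} (hx : x ∈ V) (hy : y ∈ V) :
    V.map (Equiv.swap x y).toEmbedding = V := by
  apply Finset.eq_of_subset_of_card_le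
  · intro w hw
    rw [mem_map_equiv, Equiv.symm_swap] at hw
    by_cases h1 : w = x
    · rw [h1]; exact hx
    by_cases h2 : w = y
    · rw [h2]; exact hy
    · rwa [Equiv.swap_apply_of_ne_of_ne h1 h2] at hw
  · rw [card_map]

theorem sum_swap {M : Type*} [AddCommMonoid M] {V : Finset ι} {x y : ι} (hx : x ∈ V) (hy : y ∈ V)
    (F : ι → M) : ∑ z ∈ V, F (Equiv.swap x y z) = ∑ z ∈ V, F z := by
  conv_rhs => rw [← map_swap hx hy]
  rw [sum_map]; rfl

end ren

section tw

variable {ι : Type*} [LinearOrder ι] {K : Type*} [Field K]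

/-- the nilpotent part of the twist -/
def nn (x y : ι) : Module.End K (Z ι K) := f x * f y * (d x * d y)

theorem tw_eq (x y : ι) : (tw x y : Module.End K (Z ι K)) = ren (Equiv.swap x y) * (1 + nn x y) :=
  rfl

theorem f_nn (z x y : ι) : Commute (f z : Module.End K (Z ι K)) (nn x y) :=
  ((f_comm z x).mul_right (f_comm z y)).mul_right ((f_d_comm z x).mul_right (f_d_comm z y))

theorem d_nn (z x y : ι) : Commute (d z : Module.End K (Z ι K)) (nn x y) :=
  ((f_d_comm x z).symm.mul_right (f_d_comm y z).symm).mul_right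
    ((d_comm z x).mul_right (d_comm z y))

theorem nn_comm (x y : ι) : (nn x y : Module.End K (Z ι K)) = nn y x := by
  rw [nn, nn, (f_comm x y).eq, (d_comm x y).eq]

theorem ren_nn (x y : ι) : (ren (Equiv.swap x y) : Module.End K (Z ι K)) * nn x y
    = nn x y * ren (Equiv.swap x y) := by
  have h : (ren (Equiv.swap x y) : Module.End K (Z ι K)) * nn x y
      = nn y x * ren (Equiv.swap x y) := by
    calc (ren (Equiv.swap x y) : Module.End K (Z ι K)) * nn x y
        = (ren (Equiv.swap x y) * f x) * (f y * (d x * d y)) := by simp only [nn, mul_assoc]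
      _ = f y * ((ren (Equiv.swap x y) * f y) * (d x * d y)) := by
          rw [ren_mul_f, Equiv.swap_apply_left]; simp only [mul_assoc]
      _ = f y * (f x * ((ren (Equiv.swap x y) * d x) * d y)) := by
          rw [ren_mul_f, Equiv.swap_apply_right]; simp only [mul_assoc]
      _ = f y * (f x * (d y * (ren (Equiv.swap x y) * d y))) := by
          rw [ren_mul_d, Equiv.swap_apply_left]; simp only [mul_assoc]
      _ = nn y x * ren (Equiv.swap x y) := by
          rw [ren_mul_d, Equiv.swap_apply_right, nn]; simp only [mul_assoc]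
  rw [h, nn_comm y x]

theorem nn_sq (x y : ι) : (nn x y : Module.End K (Z ι K)) * nn x y = 0 := by
  have h : (nn x y : Module.End K (Z ι K)) * f x = 0 := by
    rw [← (f_nn x x y).eq, nn, mul_assoc, ← mul_assoc (f x) (f x), f_sq, zero_mul]
  calc (nn x y : Module.End K (Z ι K)) * nn x y = nn x y * (f x * f y * (d x * d y)) := rfl
    _ = (nn x y * f x) * (f y * (d x * d y)) := by simp only [mul_assoc]
    _ = 0 := by rw [h, zero_mul]

theorem tw_f (x y z : ι) : (tw x y : Module.End K (Z ι K)) * f z
    = f (Equiv.swap x y z) * tw x y := by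
  rw [tw_eq, mul_assoc, add_mul, one_mul, ← (f_nn z x y).eq, ← mul_one (f z), mul_assoc (f z),
    ← mul_add, ← mul_assoc, ren_mul_f]
  simp only [mul_assoc, one_mul]

theorem tw_d (x y z : ι) : (tw x y : Module.End K (Z ι K)) * d z
    = d (Equiv.swap x y z) * tw x y := by
  rw [tw_eq, mul_assoc, add_mul, one_mul, ← (d_nn z x y).eq, ← mul_one (d z), mul_assoc (d z),
    ← mul_add, ← mul_assoc, ren_mul_d]
  simp only [mul_assoc, one_mul]

theorem tw_ffd (x y a b : ι) : (tw x y : Module.End K (Z ι K)) * (f a * (f b * d b))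
    = f (Equiv.swap x y a) * (f (Equiv.swap x y b) * d (Equiv.swap x y b)) * tw x y := by
  rw [← mul_assoc, tw_f, mul_assoc (f _) (tw x y), ← mul_assoc (tw x y), tw_f,
    mul_assoc (f _) (tw x y), tw_d]
  simp only [mul_assoc]

theorem tw_D {V : Finset ι} {x y : ι} (hx : x ∈ V) (hy : y ∈ V) :
    Commute (tw x y : Module.End K (Z ι K)) (D V) := by
  show (tw x y : Module.End K (Z ι K)) * D V = D V * tw x y
  rw [D, mul_sum, sum_mul, ← sum_swap hx hy (fun z => f z * d z * tw x y)]
  apply sum_congr rfl
  intro z _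
  rw [← mul_assoc, tw_f, mul_assoc, tw_d, mul_assoc]

theorem tw_e {V : Finset ι} {x y : ι} (hx : x ∈ V) (hy : y ∈ V) :
    Commute (tw x y : Module.End K (Z ι K)) (e V) := by
  show (tw x y : Module.End K (Z ι K)) * e V = e V * tw x y
  rw [e, mul_sum, sum_mul, ← sum_swap hx hy (fun z => d z * tw x y)]
  apply sum_congr rfl
  intro z _
  rw [tw_d]

end tw

section form

variable {ι : Type*} [LinearOrder ι] {K : Type*} [Field K]

theorem B0_ren {V : Finset ι} {x y : ι} (hx : x ∈ V) (hy : y ∈ V) (u v : Z ι K) :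
    B0 V (ren (Equiv.swap x y) u) v = B0 V u (ren (Equiv.swap x y) v) := by
  have hV : ∀ A : Finset ι, A.map (Equiv.swap x y).toEmbedding ∈ V.powerset ↔ A ∈ V.powerset := by
    intro A
    rw [mem_powerset, mem_powerset]
    conv_lhs => rw [← map_swap hx hy]
    exact map_subset_map
  have hinv : ∀ A : Finset ι, (A.map (Equiv.swap x y).toEmbedding).map
      (Equiv.swap x y).toEmbedding = A := by
    intro A
    ext w
    simp only [mem_map_equiv, Equiv.symm_swap, Equiv.swap_apply_self]
  have hsum : ∀ F : Finset ι → K, ∑ A ∈ V.powerset, F A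
      = ∑ A ∈ V.powerset, F (A.map (Equiv.swap x y).toEmbedding) := by
    intro F
    refine sum_bij' (fun A _ => A.map (Equiv.swap x y).toEmbedding)
      (fun A _ => A.map (Equiv.swap x y).toEmbedding) ?_ ?_ ?_ ?_ ?_
    · intro A hA; exact (hV A).2 hA
    · intro A hA; exact (hV A).2 hA
    · intro A _; exact hinv A
    · intro A _; exact hinv A
    · intro A _; rw [hinv]
  unfold B0
  rw [hsum]
  apply sum_congr rfl
  intro A _
  rw [hsum]
  apply sum_congr rfl
  intro B _
  simp only [ren_apply, Equiv.symm_swap, hinv]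

theorem B0_nn {V : Finset ι} {x y : ι} (hx : x ∈ V) (hy : y ∈ V) (u v : Z ι K) :
    B0 V (nn x y u) v = B0 V u (nn x y v) := by
  have e1 : ∀ w : Z ι K, nn x y w = f x (f y (d x (d y w))) := fun w => rfl
  have e2 : ∀ w : Z ι K, nn x y w = f y (f x (d y (d x w))) := by
    intro w; rw [nn_comm]; rfl
  rw [e1, e2, B0_f hx, B0_f hy, B0_d hx, B0_d hy]

theorem B0_tw {V : Finset ι} {x y : ι} (hx : x ∈ V) (hy : y ∈ V) (u v : Z ι K) :
    B0 V (tw x y u) v = B0 V u (tw x y v) := by
  have h1 : tw x y u = ren (Equiv.swap x y) (u + nn x y u) := by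
    rw [tw_eq, Module.End.mul_apply, LinearMap.add_apply, Module.End.one_apply]
  have h2 : tw x y v = ren (Equiv.swap x y) v + nn x y (ren (Equiv.swap x y) v) := by
    rw [tw_eq, mul_add, mul_one, ren_nn]
    rfl
  rw [h1, h2, B0_ren hx hy, B0_add_left, B0_add_right, B0_nn hx hy]

end form

section char2

variable {ι : Type*} [LinearOrder ι] {K : Type*} [Field K] [CharP K 2]

theorem tw_sq (x y : ι) : (tw x y : Module.End K (Z ι K)) * tw x y = 1 := by
  have h : (1 + nn x y : Module.End K (Z ι K)) * (1 + nn x y) = 1 := by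
    rw [add_mul, one_mul, mul_add, mul_one, nn_sq, add_zero, add_assoc, end_add_self, add_zero]
  have h2 : (tw x y : Module.End K (Z ι K)) = (1 + nn x y) * ren (Equiv.swap x y) := by
    rw [tw_eq, mul_add, add_mul, mul_one, one_mul, ren_nn]
  calc (tw x y : Module.End K (Z ι K)) * tw x y
      = (ren (Equiv.swap x y) * (1 + nn x y)) * ((1 + nn x y) * ren (Equiv.swap x y)) := by
        rw [← tw_eq, ← h2]
    _ = ren (Equiv.swap x y) * ((1 + nn x y) * (1 + nn x y)) * ren (Equiv.swap x y) := by
        simp only [mul_assoc]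
    _ = 1 := by rw [h, mul_one, ren_swap_sq]

/-- the Clifford element `E z = ε_z + f_z * (sum of f u * d u over u > z)` -/
def E (V : Finset ι) (z : ι) : Module.End K (Z ι K) :=
  th z + f z * ∑ u ∈ V.filter (fun u => z < u), f u * d u

omit [CharP K 2] in
theorem nn_th_of_ne {x y z : ι} (hx : x ≠ z) (hy : y ≠ z) :
    Commute (nn x y : Module.End K (Z ι K)) (th z) :=
  ((f_th_comm x z).mul_left (f_th_comm y z)).mul_left
    ((d_th_comm hx).mul_left (d_th_comm hy))

omit [CharP K 2] in
theorem nn_th_left {x y : ι} (hxy : x ≠ y) :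
    (nn x y : Module.End K (Z ι K)) * th x + th x * nn x y = f x * (f y * d y) := by
  have hc : Commute (d x * th x : Module.End K (Z ι K)) (d y) :=
    (d_comm x y).mul_left (d_th_comm (Ne.symm hxy)).symm
  have hc2 : Commute (th x * d x : Module.End K (Z ι K)) (d y) :=
    (d_th_comm (Ne.symm hxy)).symm.mul_left (d_comm x y)
  have h1 : (nn x y : Module.End K (Z ι K)) * th x = f x * (f y * d y) * (d x * th x) := by
    rw [nn]
    calc (f x * f y * (d x * d y) * th x : Module.End K (Z ι K))
        = f x * f y * (d x * (d y * th x)) := by simp only [mul_assoc]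
      _ = f x * f y * (d x * (th x * d y)) := by rw [(d_th_comm (Ne.symm hxy)).eq]
      _ = f x * f y * ((d x * th x) * d y) := by simp only [mul_assoc]
      _ = f x * f y * (d y * (d x * th x)) := by
          rw [hc.eq]
      _ = _ := by simp only [mul_assoc]
  have h2 : (th x : Module.End K (Z ι K)) * nn x y = f x * (f y * d y) * (th x * d x) := by
    rw [nn]
    calc (th x * (f x * f y * (d x * d y)) : Module.End K (Z ι K))
        = (th x * f x) * f y * (d x * d y) := by simp only [mul_assoc]
      _ = f x * (th x * f y) * (d x * d y) := by rw [← (f_th_comm x x).eq]; simp only [mul_assoc]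
      _ = f x * (f y * th x) * (d x * d y) := by rw [← (f_th_comm y x).eq]
      _ = f x * f y * ((th x * d x) * d y) := by simp only [mul_assoc]
      _ = f x * f y * (d y * (th x * d x)) := by
          rw [hc2.eq]
      _ = _ := by simp only [mul_assoc]
  rw [h1, h2, ← mul_add, d_th_same, mul_one]

omit [CharP K 2] in
theorem nn_f_left (x y : ι) : (nn x y : Module.End K (Z ι K)) * f x = 0 := by
  rw [← (f_nn x x y).eq, nn, mul_assoc, ← mul_assoc (f x) (f x), f_sq, zero_mul]

omit [CharP K 2] in
theorem tw_mul_sum {x y : ι} (S T : Finset ι)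
    (hST : S.map (Equiv.swap x y).toEmbedding = T) :
    (tw x y : Module.End K (Z ι K)) * ∑ u ∈ S, f u * d u = (∑ u ∈ T, f u * d u) * tw x y := by
  rw [mul_sum, sum_mul, ← hST, sum_map]
  apply sum_congr rfl
  intro z _
  rw [← mul_assoc, tw_f, mul_assoc, tw_d, mul_assoc]
  rfl

theorem map_filter_lt {V : Finset ι} {x y z : ι} (hx : x ∈ V) (hy : y ∈ V)
    (hadj : ∀ u ∈ V, ¬ (x < u ∧ u < y)) (hxy : x < y) (hzx : z ≠ x) (hzy : z ≠ y) (hz : z ∈ V) :
    (V.filter (fun u => z < u)).map (Equiv.swap x y).toEmbedding = V.filter (fun u => z < u) := by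
  have hcmp : z < x ↔ z < y := by
    constructor
    · intro h; exact h.trans hxy
    · intro h
      by_contra h2
      exact hadj z hz ⟨lt_of_le_of_ne (not_lt.1 h2) (Ne.symm hzx), h⟩
  ext w
  rw [mem_map_equiv, Equiv.symm_swap, mem_filter, mem_filter]
  by_cases h1 : w = x
  · subst h1; rw [Equiv.swap_apply_left]; simp [hx, hy, hcmp]
  by_cases h2 : w = y
  · subst h2; rw [Equiv.swap_apply_right]; simp [hx, hy, hcmp]
  rw [Equiv.swap_apply_of_ne_of_ne h1 h2]

theorem filter_left {V : Finset ι} {x y : ι} (hy : y ∈ V)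
    (hadj : ∀ u ∈ V, ¬ (x < u ∧ u < y)) (hxy : x < y) :
    V.filter (fun u => x < u) = insert y (V.filter (fun u => y < u)) := by
  ext w
  simp only [mem_filter, mem_insert]
  constructor
  · rintro ⟨h1, h2⟩
    by_cases h3 : w = y
    · exact Or.inl h3
    · right
      refine ⟨h1, ?_⟩
      by_contra h4
      exact hadj w h1 ⟨h2, lt_of_le_of_ne (not_lt.1 h4) h3⟩
  · rintro (h | ⟨h1, h2⟩)
    · subst h; exact ⟨hy, hxy⟩
    · exact ⟨h1, hxy.trans h2⟩

theorem map_filter_right {V : Finset ι} {x y : ι} (hxy : x < y) :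
    (V.filter (fun u => y < u)).map (Equiv.swap x y).toEmbedding = V.filter (fun u => y < u) := by
  ext w
  rw [mem_map_equiv, Equiv.symm_swap, mem_filter, mem_filter]
  by_cases h1 : w = x
  · subst h1; rw [Equiv.swap_apply_left]
    simp [not_lt.2 hxy.le]
  by_cases h2 : w = y
  · subst h2; rw [Equiv.swap_apply_right]
    simp [not_lt.2 hxy.le]
  rw [Equiv.swap_apply_of_ne_of_ne h1 h2]

/-- the twisted transposition renames the Clifford generators -/
theorem tw_E {V : Finset ι} {x y z : ι} (hx : x ∈ V) (hy : y ∈ V)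
    (hadj : ∀ u ∈ V, ¬ (x < u ∧ u < y)) (hxy : x < y) (hz : z ∈ V) :
    (tw x y : Module.End K (Z ι K)) * E V z = E V (Equiv.swap x y z) * tw x y := by
  have hS : (tw x y : Module.End K (Z ι K)) * (f z * ∑ u ∈ V.filter (fun u => z < u), f u * d u)
      = f (Equiv.swap x y z) * (∑ u ∈ (V.filter (fun u => z < u)).map
        (Equiv.swap x y).toEmbedding, f u * d u) * tw x y := by
    rw [← mul_assoc, tw_f, mul_assoc, tw_mul_sum _ _ rfl, ← mul_assoc]
  have hth : (tw x y : Module.End K (Z ι K)) * th z
      = th (Equiv.swap x y z) * tw x y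
        + ren (Equiv.swap x y) * (nn x y * th z + th z * nn x y) := by
    have h1 : (ren (Equiv.swap x y) : Module.End K (Z ι K)) * (th z * nn x y)
        = th (Equiv.swap x y z) * (ren (Equiv.swap x y) * nn x y) := by
      rw [← mul_assoc, ren_mul_th, mul_assoc]
    rw [tw_eq, mul_assoc, add_mul, one_mul, mul_add, ren_mul_th, mul_add, mul_one, mul_add,
      mul_add, h1, add_assoc]
    congr 1
    rw [← add_assoc, add_comm (th _ * _), add_assoc, end_add_self, add_zero]
  rw [E, mul_add, hS, hth]
  by_cases hzx : z = x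
  · subst hzx
    rw [nn_th_left hxy.ne, Equiv.swap_apply_left, filter_left hy hadj hxy, map_insert,
      map_filter_right hxy, sum_insert]
    · rw [E]
      have h2 : (ren (Equiv.swap z y) : Module.End K (Z ι K)) * (f z * (f y * d y))
          = f y * (f z * d z) * tw z y := by
        have h3 : (f y * (f z * d z) : Module.End K (Z ι K)) * tw z y
            = tw z y * (f z * (f y * d y)) := by
          rw [tw_ffd, Equiv.swap_apply_left, Equiv.swap_apply_right]
        rw [h3, tw_eq, mul_assoc, add_mul, one_mul, ← mul_assoc (nn z y), nn_f_left, zero_mul,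
          add_zero]
      rw [h2]
      simp only [Equiv.coe_toEmbedding, Equiv.swap_apply_right, mul_add, add_mul]
      rw [add_assoc, ← add_assoc (f y * (f z * d z) * tw z y), end_add_self, zero_add]
    · simp [not_lt.2 hxy.le]
  by_cases hzy : z = y
  · subst hzy
    have hnn : (nn x z : Module.End K (Z ι K)) * th z + th z * nn x z = f z * (f x * d x) := by
      rw [nn_comm]; exact nn_th_left hxy.ne'
    rw [hnn, Equiv.swap_apply_right, map_filter_right hxy, E, filter_left hy hadj hxy, sum_insert]
    · have h2 : (ren (Equiv.swap x z) : Module.End K (Z ι K)) * (f z * (f x * d x))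
          = f x * (f z * d z) * tw x z := by
        have h3 : (f x * (f z * d z) : Module.End K (Z ι K)) * tw x z
            = tw x z * (f z * (f x * d x)) := by
          rw [tw_ffd, Equiv.swap_apply_left, Equiv.swap_apply_right]
        have h4 : (nn x z : Module.End K (Z ι K)) * f z = 0 := by
          rw [nn_comm]; exact nn_f_left z x
        rw [h3, tw_eq, mul_assoc, add_mul, one_mul, ← mul_assoc (nn x z), h4, zero_mul,
          add_zero]
      rw [h2]
      simp only [mul_add, add_mul]
      abel
    · simp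
  · rw [((nn_th_of_ne (Ne.symm hzx) (Ne.symm hzy)).eq), end_add_self, mul_zero, add_zero,
      map_filter_lt hx hy hadj hxy hzx hzy hz, Equiv.swap_apply_of_ne_of_ne hzx hzy, E, add_mul]

end char2

end D81877Z
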